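import Pool.Agent.H12.Norm6

namespace Pool.Agent.Results.MP_0c7e55_an.NoPair

open MeasureTheory Filter Topology Finset
open scoped Classical ENNReal

/-- the left shift -/
def shift {Λ : Type} (x : ℕ → Λ) : ℕ → Λ := fun n => x (n + 1)

/-- Shannon entropy of the join of `Q, σ⁻¹ Q, …, σ^{-(n-1)} Q` for a finite partition `Q` -/
noncomputable def blockEntropy {Λ : Type} [MeasurableSpace Λ] (μ : Measure (ℕ → Λ)) {m : ℕ}
    (Q : (ℕ → Λ) → Fin m) (n : ℕ) : ℝ :=
  ∑ w : Fin n → Fin m, Real.negMulLog (μ.real {x | ∀ i : Fin n, Q (shift^[i] x) = w i})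

/-- Kolmogorov-Sinai entropy of the shift: supremum over finite measurable partitions -/
noncomputable def entropy {Λ : Type} [MeasurableSpace Λ] (μ : Measure (ℕ → Λ)) : ℝ≥0∞ :=
  ⨆ (m : ℕ) (Q : (ℕ → Λ) → Fin m) (_ : Measurable Q),
    limsup (fun n : ℕ => ENNReal.ofReal (blockEntropy μ Q n / n)) atTop

/-- every block occurs in `x` with frequency `μ [B]` -/
def Generic {Λ : Type} [MeasurableSpace Λ] (μ : Measure (ℕ → Λ)) (x : ℕ → Λ) : Prop :=
  ∀ (k : ℕ) (B : Fin k → Λ),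
    Tendsto (fun N : ℕ => (#{t ∈ range N | ∀ i : Fin k, x (t + i) = B i} : ℝ) / N) atTop
      (𝓝 (μ.real {z | ∀ i : Fin k, z i = B i}))

/-- every symbol occurs in `z` with frequency `μ [a]` -/
def SimplyNormal {Λ : Type} [MeasurableSpace Λ] (μ : Measure (ℕ → Λ)) (z : ℕ → Λ) : Prop :=
  ∀ a, Tendsto (fun N : ℕ => (#{t ∈ range N | z t = a} : ℝ) / N) atTop (𝓝 (μ.real {x | x 0 = a}))

/-- `x|_S`: the symbols of `x` at the elements of `S` in increasing order -/
noncomputable def restr {Λ : Type} (x : ℕ → Λ) (S : Set ℕ) : ℕ → Λ :=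
  fun n => x (Nat.nth (· ∈ S) n)

/-- the indicator sequence of `S` -/
noncomputable def indic (S : Set ℕ) : ℕ → Bool := fun n => decide (n ∈ S)

/-- `ν` is a shift-invariant weak-* limit of the empirical measures of `1_S` along a
subsequence -/
def Derived (S : Set ℕ) (ν : Measure (ℕ → Bool)) : Prop :=
  IsProbabilityMeasure ν ∧ MeasurePreserving shift ν ν ∧ ∃ N : ℕ → ℕ, StrictMono N ∧
    ∀ g : (ℕ → Bool) → ℝ, Continuous g →
      Tendsto (fun k => (N k : ℝ)⁻¹ * ∑ t ∈ range (N k), g (shift^[t] (indic S))) atTop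
        (𝓝 (∫ y, g y ∂ν))

/-- all derived measures have zero entropy -/
def Deterministic (S : Set ℕ) : Prop := ∀ ν, Derived S ν → entropy ν = 0

theorem result (Λ : Type) [Countable Λ] [MeasurableSpace Λ] [DiscreteMeasurableSpace Λ]
    (μ : Measure (ℕ → Λ)) [IsProbabilityMeasure μ] (hμ : MeasurePreserving shift μ μ)
    (hpos : 0 < entropy μ) (S : Set ℕ) (hinf : S.Infinite) (hS : ¬ Deterministic S) :
    ∃ x, Generic μ x ∧ ¬ SimplyNormal μ (restr x S) := by
  rw [Deterministic] at hS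
  push Not at hS
  obtain ⟨ν, ⟨h1, h2, N, h3, h4⟩, h5⟩ := hS
  obtain ⟨F, hF⟩ := Pool.Agent.H12.Norm6.not_det hμ hpos.ne'
  obtain ⟨G, hG⟩ := Pool.Agent.H12.Norm6.not_det h2 h5
  exact Pool.Agent.H12.Norm6.final hμ hF h2 hG hinf h3 h4

end Pool.Agent.Results.MP_0c7e55_an.NoPair
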